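import Mathlib.Combinatorics.SimpleGraph.Finsubgraph
import Mathlib.Combinatorics.SimpleGraph.Metric
import Mathlib.Combinatorics.SimpleGraph.Coloring.Constructions
import Mathlib.Tactic

/-!
# Large partial order decomposition number does not force small subtournaments of large `pod`
(MP_b90bcc_co)

The tournaments are obtained from linear orders by reversing the edges of graphs of large odd
girth and large chromatic number (finite subgraphs of shift graphs).
-/

namespace Pool.Agent.Results.MP_b90bcc_co.NoSmallWitness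

open SimpleGraph

/-- A tournament on `V`: a loopless relation such that exactly one of `(u,v)`, `(v,u)` is an arc
for distinct `u`, `v`. -/
structure Tournament (V : Type) where
  arc : V → V → Prop
  loopless : ∀ u, ¬ arc u u
  exactly_one : ∀ u v, u ≠ v → (arc u v ∨ arc v u) ∧ ¬ (arc u v ∧ arc v u)

/-- The subtournament induced on `X`. -/
def Tournament.induce {V : Type} (T : Tournament V) (X : Set V) : Tournament X where
  arc u v := T.arc u v
  loopless u := T.loopless u
  exactly_one u v h := T.exactly_one u v (fun h' => h (Subtype.ext h'))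

/-- `T` has a partial order decomposition into `m` transitive sets of arcs: sets of arcs
`P 0, …, P (m-1)`, each transitive, whose union is the set of all arcs. -/
def HasDecomposition {V : Type} (T : Tournament V) (m : ℕ) : Prop :=
  ∃ P : Fin m → V → V → Prop, (∀ i a b c, P i a b → P i b c → P i a c) ∧
    ∀ a b, T.arc a b ↔ ∃ i, P i a b

/-- The partial order decomposition number. -/
noncomputable def pod {V : Type} (T : Tournament V) : ℕ := sInf {m | HasDecomposition T m}

theorem HasDecomposition.mono {V : Type} {T : Tournament V} {m n : ℕ} (hmn : m ≤ n)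
    (h : HasDecomposition T m) : HasDecomposition T n := by
  obtain ⟨P, hP1, hP2⟩ := h
  refine ⟨fun i a b => ∃ h : i.val < m, P ⟨i.val, h⟩ a b, ?_, ?_⟩
  · rintro i a b c ⟨h1, h2⟩ ⟨_, h3⟩
    exact ⟨h1, hP1 _ _ _ _ h2 h3⟩
  · intro a b
    rw [hP2]
    constructor
    · rintro ⟨i, hi⟩
      exact ⟨⟨i.val, lt_of_lt_of_le i.isLt hmn⟩, i.isLt, hi⟩
    · rintro ⟨i, h, hi⟩
      exact ⟨_, hi⟩

theorem exists_decomposition {V : Type} [Finite V] (T : Tournament V) :
    ∃ m, HasDecomposition T m := by
  obtain ⟨m, ⟨e⟩⟩ := Finite.exists_equiv_fin (V × V)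
  refine ⟨m, fun i a b => T.arc a b ∧ e.symm i = (a, b), ?_, ?_⟩
  · rintro i a b c ⟨h1, h2⟩ ⟨h3, h4⟩
    rw [h2, Prod.ext_iff] at h4
    have : a = b := h4.1
    subst this
    exact absurd h1 (T.loopless a)
  · intro a b
    constructor
    · intro h
      exact ⟨e (a, b), h, by simp⟩
    · rintro ⟨i, h, _⟩
      exact h

theorem pod_le {V : Type} {T : Tournament V} {m : ℕ} (h : HasDecomposition T m) : pod T ≤ m :=
  Nat.sInf_le h

theorem lt_pod {V : Type} [Finite V] {T : Tournament V} {m : ℕ} (h : ¬ HasDecomposition T m) :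
    m < pod T := by
  by_contra hcon
  push Not at hcon
  apply h
  refine HasDecomposition.mono hcon ?_
  exact Nat.sInf_mem (exists_decomposition T)

/-- The tournament obtained from a linear order by reversing the edges of a graph. -/
def rev {V : Type} [LinearOrder V] (G : SimpleGraph V) : Tournament V where
  arc u v := (u < v ∧ ¬ G.Adj u v) ∨ (v < u ∧ G.Adj u v)
  loopless u := by simp
  exactly_one u v h := by
    have h1 : G.Adj u v ↔ G.Adj v u := G.adj_comm u v
    rcases lt_or_gt_of_ne h with h2 | h2
    · have h3 := h2.not_gt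
      tauto
    · have h3 := h2.not_gt
      tauto

/-- A decomposition of `rev G` with `m` parts gives a colouring of `G` with `2 ^ m` colours if `G`
is triangle-free. -/
theorem coloring_of_decomposition {V : Type} [LinearOrder V] {G : SimpleGraph V}
    (htri : ∀ a b c, G.Adj a b → G.Adj b c → ¬ G.Adj a c) {m : ℕ}
    (h : HasDecomposition (rev G) m) : G.Colorable (2 ^ m) := by
  classical
  obtain ⟨P, hP1, hP2⟩ := h
  let I : V → Finset (Fin m) := fun v => Finset.univ.filter (fun i => ∃ w, v < w ∧ P i w v)
  have hback : ∀ {i a b}, P i a b → b < a → G.Adj a b := by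
    intro i a b hp hlt
    rcases (hP2 a b).2 ⟨i, hp⟩ with h | h
    · exact absurd h.1 hlt.not_gt
    · exact h.2
  have key : ∀ u v, u < v → G.Adj u v → I u ≠ I v := by
    intro u v huv hadj heq
    obtain ⟨i, hi⟩ := (hP2 v u).1 (Or.inr ⟨huv, hadj.symm⟩)
    have h1 : i ∈ I u := by simp only [I, Finset.mem_filter, Finset.mem_univ, true_and]; exact ⟨v, huv, hi⟩
    rw [heq] at h1
    simp only [I, Finset.mem_filter, Finset.mem_univ, true_and] at h1
    obtain ⟨w, hw, hwi⟩ := h1
    have h2 := hP1 i w v u hwi hi
    exact htri w v u (hback hwi hw) hadj.symm (hback h2 (huv.trans hw))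
  let C : G.Coloring (Finset (Fin m)) := Coloring.mk I (by
    intro u v hadj
    rcases lt_or_gt_of_ne hadj.ne with h | h
    · exact key u v h hadj
    · exact (key v u h hadj.symm).symm)
  have := C.colorable
  simpa using this

/-- If the restriction of `G` to `X` is 2-colourable then the subtournament on `X` has a
decomposition into three parts. -/
theorem decomposition_of_coloring {V : Type} [LinearOrder V] {G : SimpleGraph V} {X : Set V}
    (h : (G.induce X).Colorable 2) : HasDecomposition ((rev G).induce X) 3 := by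
  obtain ⟨C⟩ := h
  have hC : ∀ a b : X, G.Adj a b → C a ≠ C b := fun a b hab => C.valid hab
  have h01 : ∀ c : Fin 2, c = 0 ∨ c = 1 := by decide
  refine ⟨fun i a b => ((rev G).induce X).arc a b ∧
    ((i = 0 ∧ C a = 0 ∧ C b = 1) ∨ (i = 1 ∧ C a = 1 ∧ C b = 0) ∨ (i = 2 ∧ C a = C b)), ?_, ?_⟩
  · rintro i a b c ⟨h1, h2⟩ ⟨h3, h4⟩
    rcases h2 with ⟨rfl, h5, h6⟩ | ⟨rfl, h5, h6⟩ | ⟨rfl, h5⟩
    · rcases h4 with ⟨_, h7, _⟩ | ⟨h7, _⟩ | ⟨h7, _⟩
      · rw [h6] at h7
        exact absurd h7 (by decide)
      · exact absurd h7 (by decide)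
      · exact absurd h7 (by decide)
    · rcases h4 with ⟨h7, _⟩ | ⟨_, h7, _⟩ | ⟨h7, _⟩
      · exact absurd h7 (by decide)
      · rw [h6] at h7
        exact absurd h7 (by decide)
      · exact absurd h7 (by decide)
    · rcases h4 with ⟨h7, _⟩ | ⟨h7, _⟩ | ⟨_, h7⟩
      · exact absurd h7 (by decide)
      · exact absurd h7 (by decide)
      · refine ⟨?_, Or.inr (Or.inr ⟨rfl, h5.trans h7⟩)⟩
        have n1 : ¬ G.Adj (a : V) b := fun h => hC a b h h5
        have n2 : ¬ G.Adj (b : V) c := fun h => hC b c h h7
        have n3 : ¬ G.Adj (a : V) c := fun h => hC a c h (h5.trans h7)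
        have l1 : (a : V) < b := by
          rcases h1 with h | h
          · exact h.1
          · exact absurd h.2 n1
        have l2 : (b : V) < c := by
          rcases h3 with h | h
          · exact h.1
          · exact absurd h.2 n2
        exact Or.inl ⟨l1.trans l2, n3⟩
  · intro a b
    constructor
    · intro hab
      rcases h01 (C a) with ha | ha <;> rcases h01 (C b) with hb | hb
      · exact ⟨2, hab, Or.inr (Or.inr ⟨rfl, ha.trans hb.symm⟩)⟩
      · exact ⟨0, hab, Or.inl ⟨rfl, ha, hb⟩⟩
      · exact ⟨1, hab, Or.inr (Or.inl ⟨rfl, ha, hb⟩)⟩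
      · exact ⟨2, hab, Or.inr (Or.inr ⟨rfl, ha.trans hb.symm⟩)⟩
    · rintro ⟨i, h, _⟩
      exact h

/-! ### Shift graphs -/

/-- Strictly increasing sequences of natural numbers. -/
abbrev Seq := {x : ℕ → ℕ // StrictMono x}

/-- `y` is a shift of `x` within the window of length `r`. -/
def Sh (r : ℕ) (x y : Seq) : Prop := x.1 0 < y.1 0 ∧ ∀ i, i + 1 < r → y.1 i = x.1 (i + 1)

/-- The shift graph. -/
def G (r : ℕ) : SimpleGraph Seq where
  Adj x y := Sh r x y ∨ Sh r y x
  symm := ⟨fun _ _ h => h.symm⟩
  loopless := ⟨fun x h => by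
    rcases h with h | h
    · exact lt_irrefl _ h.1
    · exact lt_irrefl _ h.1⟩

/-- The shift relation admits no proper colouring with finitely many colours. -/
theorem no_coloring : ∀ (r : ℕ) (C : Type) [Finite C] (φ : Seq → C),
    ∃ x y, Sh (r + 1) x y ∧ φ x = φ y := by
  intro r
  induction r with
  | zero =>
    intro C _ φ
    let s : ℕ → Seq := fun n => ⟨fun i => n + i, fun a b h => by simpa using h⟩
    obtain ⟨a, b, hne, hab⟩ := Finite.exists_ne_map_eq_of_infinite (fun n => φ (s n))
    have key : ∀ a b, a < b → Sh (0 + 1) (s a) (s b) := by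
      intro a b h
      refine ⟨by simpa [s] using h, fun i hi => by omega⟩
    rcases lt_or_gt_of_ne hne with h | h
    · exact ⟨s a, s b, key a b h, hab⟩
    · exact ⟨s b, s a, key b a h, hab.symm⟩
  | succ r ih =>
    intro C _ φ
    by_contra hcon
    push Not at hcon
    obtain ⟨x, y, hxy, hc⟩ := ih (Set C) (fun x => {c | ∃ z : Seq, (∀ i, i < r + 1 → z.1 i = x.1 i) ∧
      φ z = c})
    -- prepend `x 0` to `y`
    have hz : StrictMono (fun i : ℕ => if i = 0 then x.1 0 else y.1 (i - 1)) := by
      apply strictMono_nat_of_lt_succ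
      intro i
      rcases i with _ | i
      · simpa using hxy.1
      · simp only [Nat.add_eq_zero_iff, one_ne_zero, and_false, if_false, Nat.add_sub_cancel]
        exact y.2 (Nat.lt_succ_self i)
    let z : Seq := ⟨_, hz⟩
    have hz0 : z.1 0 = x.1 0 := rfl
    have hz1 : ∀ i, z.1 (i + 1) = y.1 i := by
      intro i
      show (if i + 1 = 0 then x.1 0 else y.1 (i + 1 - 1)) = y.1 i
      rw [if_neg (by omega), Nat.add_sub_cancel]
    have hzx : ∀ i, i < r + 1 → z.1 i = x.1 i := by
      intro i hi
      rcases i with _ | i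
      · exact hz0
      · rw [hz1]
        exact hxy.2 i hi
    have h1 : φ z ∈ {c | ∃ z : Seq, (∀ i, i < r + 1 → z.1 i = x.1 i) ∧ φ z = c} := ⟨z, hzx, rfl⟩
    rw [hc] at h1
    obtain ⟨w, hw, hwz⟩ := h1
    refine hcon z w ⟨?_, ?_⟩ hwz.symm
    · rw [hz0, hw 0 (by omega)]
      exact hxy.1
    · intro i hi
      rw [hz1, hw i (by omega)]

/-- Walks in the shift graph preserve entries up to an offset. -/
theorem walk_offset {r : ℕ} {x y : Seq} (w : (G r).Walk x y) :
    ∃ a b : ℕ, a + b = w.length ∧ ∀ i, i + w.length < r → x.1 (a + i) = y.1 (b + i) := by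
  induction w with
  | nil => exact ⟨0, 0, rfl, fun i _ => rfl⟩
  | @cons u v z h p ih =>
    obtain ⟨a, b, hab, hi⟩ := ih
    rw [Walk.length_cons]
    rcases h with h | h
    · refine ⟨a + 1, b, by omega, fun i hlt => ?_⟩
      have e1 : a + 1 + i = a + i + 1 := by omega
      rw [e1, ← hi i (by omega)]
      exact (h.2 (a + i) (by omega)).symm
    · refine ⟨a, b + 1, by omega, fun i hlt => ?_⟩
      have h1 := hi (i + 1) (by omega)
      have h2 := h.2 (a + i) (by omega)
      rw [h2]
      have e1 : a + (i + 1) = a + i + 1 := by omega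
      have e2 : b + (i + 1) = b + 1 + i := by omega
      rw [e1, e2] at h1
      exact h1

theorem even_of_short {r : ℕ} {x : Seq} (w : (G r).Walk x x) (hw : w.length < r) :
    Even w.length := by
  obtain ⟨a, b, hab, hi⟩ := walk_offset w
  have h1 := hi 0 (by omega)
  have h2 : a + 0 = b + 0 := x.2.injective h1
  exact ⟨a, by omega⟩

/-- A finite graph whose short closed walks are even is 2-colourable. -/
theorem two_colorable {W : Type} [Fintype W] (H : SimpleGraph W) {k : ℕ}
    (hk : Fintype.card W ≤ k)
    (h : ∀ (x : W) (w : H.Walk x x), w.length < 2 * k → Even w.length) : H.Colorable 2 := by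
  classical
  let base : W → W := fun v => Quot.out (H.connectedComponentMk v)
  have hreach : ∀ v, H.Reachable (base v) v := by
    intro v
    apply ConnectedComponent.exact
    exact Quot.out_eq (H.connectedComponentMk v)
  have hbase : ∀ u v, H.Adj u v → base u = base v := by
    intro u v h
    show Quot.out _ = Quot.out _
    rw [ConnectedComponent.sound h.reachable]
  have hlt : ∀ v, ∃ p : H.Walk (base v) v, p.length = H.dist (base v) v ∧ p.length < k := by
    intro v
    obtain ⟨p, hp1, hp2⟩ := (hreach v).exists_path_of_dist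
    exact ⟨p, hp2, lt_of_lt_of_le hp1.length_lt hk⟩
  have hcol : ∀ u v, H.Adj u v →
      decide (Even (H.dist (base u) u)) ≠ decide (Even (H.dist (base v) v)) := by
    intro u v huv
    obtain ⟨p, hp1, hp2⟩ := hlt u
    obtain ⟨q, hq1, hq2⟩ := hlt v
    have hb := hbase u v huv
    let q' : H.Walk (base u) v := q.copy hb.symm rfl
    have hq' : q'.length = q.length := by simp [q']
    have h1 := h (base u) ((p.append (Walk.cons huv Walk.nil)).append q'.reverse) (by
      simp only [Walk.length_append, Walk.length_cons, Walk.length_nil, Walk.length_reverse, hq']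
      omega)
    simp only [Walk.length_append, Walk.length_cons, Walk.length_nil, Walk.length_reverse, hq',
      hp1, hq1] at h1
    intro hcon
    rw [decide_eq_decide] at hcon
    have h2 : Even (H.dist (base u) u + H.dist (base v) v + 1) := by
      have e : H.dist (base u) u + (0 + 1) + H.dist (base v) v =
        H.dist (base u) u + H.dist (base v) v + 1 := by ring
      rwa [e] at h1
    rw [Nat.even_add_one, Nat.even_add] at h2
    exact h2 hcon
  have C : H.Coloring Bool := Coloring.mk (fun v => decide (Even (H.dist (base v) v)))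
    (fun {u v} huv => hcol u v huv)
  simpa using C.colorable

/-- Finite vertex sets of the shift graph with large chromatic number. -/
theorem exists_finite (r m : ℕ) : ∃ Y : Set Seq, Y.Finite ∧ ¬ ((G (r + 1)).induce Y).Colorable m := by
  by_contra hcon
  push Not at hcon
  have h : Nonempty (G (r + 1) →g (⊤ : SimpleGraph (Fin m))) := by
    apply nonempty_hom_of_forall_finite_subgraph_hom
    intro G' hG'
    have hc := hcon G'.verts hG'
    have C : ((G (r + 1)).induce G'.verts).Coloring (Fin m) := hc.some
    exact ⟨fun v => C v, fun {a b} hab => C.valid (G'.adj_sub hab)⟩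
  obtain ⟨φ⟩ := h
  obtain ⟨x, y, hxy, hc⟩ := no_coloring r (Fin m) φ
  exact φ.map_rel (Or.inl hxy : (G (r + 1)).Adj x y) hc

/-- The tournaments. -/
theorem exists_tournament (k N : ℕ) : ∃ (V : Type) (_ : Finite V) (T : Tournament V),
    N < pod T ∧ ∀ X : Set V, X.ncard ≤ k → pod (T.induce X) ≤ 3 := by
  classical
  obtain ⟨Y, hY, hcol⟩ := exists_finite (2 * k + 3) (2 ^ N)
  have : Fintype Y := hY.fintype
  have : LinearOrder Y := LinearOrder.lift' (Fintype.equivFin Y) (Fintype.equivFin Y).injective
  let H : SimpleGraph Y := (G (2 * k + 4)).induce Y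
  have hloop : ∀ (x : Y) (w : H.Walk x x), w.length < 2 * k + 4 → Even w.length := by
    intro x w hw
    let f : H →g G (2 * k + 4) := ⟨Subtype.val, fun {a b} hab => hab⟩
    have := even_of_short (w.map f) (by rw [Walk.length_map]; exact hw)
    rwa [Walk.length_map] at this
  refine ⟨Y, inferInstance, rev H, lt_pod ?_, ?_⟩
  · intro hdec
    apply hcol
    apply coloring_of_decomposition (G := H) ?_ hdec
    intro a b c hab hbc hac
    have := hloop a (Walk.cons hab (Walk.cons hbc (Walk.cons hac.symm Walk.nil))) (by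
      simp only [Walk.length_cons, Walk.length_nil]
      omega)
    simp only [Walk.length_cons, Walk.length_nil] at this
    exact absurd this (by decide)
  · intro X hX
    apply pod_le
    apply decomposition_of_coloring
    have : Fintype X := Fintype.ofFinite X
    apply two_colorable (k := k) (H.induce X)
    · rw [← Nat.card_eq_fintype_card, Nat.card_coe_set_eq]
      exact hX
    · intro x w hw
      let f : (H.induce X) →g H := ⟨Subtype.val, fun {a b} hab => hab⟩
      have := hloop _ (w.map f) (by rw [Walk.length_map]; omega)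
      rwa [Walk.length_map] at this

/-- There are positive integers `k`, `s` such that some tournament on at most `k` vertices has
`pod ≥ s`, but for every `N` some finite tournament `T` with `pod T ≥ N` satisfies
`pod T[X] < s` for all sets `X` of at most `k` vertices. -/
theorem result : ∃ k s : ℕ, 0 < k ∧ 0 < s ∧
    (∃ (V : Type) (_ : Finite V) (T : Tournament V), Nat.card V ≤ k ∧ s ≤ pod T) ∧
    ∀ N : ℕ, ∃ (V : Type) (_ : Finite V) (T : Tournament V), N ≤ pod T ∧
      ∀ X : Set V, X.ncard ≤ k → pod (T.induce X) < s := by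
  obtain ⟨V, hV, T, hT, _⟩ := exists_tournament 0 3
  refine ⟨Nat.card V + 1, 4, by omega, by omega, ⟨V, hV, T, by omega, hT⟩, fun N => ?_⟩
  obtain ⟨V', hV', T', hT', h⟩ := exists_tournament (Nat.card V + 1) N
  exact ⟨V', hV', T', hT'.le, fun X hX => Nat.lt_succ_of_le (h X hX)⟩

end Pool.Agent.Results.MP_b90bcc_co.NoSmallWitness
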